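import Pool.Agent.Helper51.Pell.Main

set_option autoImplicit false

namespace Pool.Agent.Results.MP_3188d7_nt.DivisorPowers

open Pool.Agent.Helper51.Pell

/-- For every squarefree `m ≥ 1`, every exponent `κ` and every bound `B` there is a squarefree
`d > B` with an odd prime divisor, divisible by `m`, such that `m ^ κ` divides the coefficient
`u(d)` of the fundamental unit of `ℚ(√d)`. -/
theorem result (m : ℕ) (hm : Squarefree m) (κ B : ℕ) :
    ∃ d : ℕ, B < d ∧ Squarefree d ∧ (∃ p : ℕ, p.Prime ∧ p % 2 = 1 ∧ p ∣ d) ∧ m ∣ d ∧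
      ∃ t u : ℤ, IsFundamental d t u ∧ ((m : ℤ) ^ κ) ∣ u :=
  main m κ B hm

end Pool.Agent.Results.MP_3188d7_nt.DivisorPowers
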